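import Mathlib
import Pool.Agent.MP_f0209c_nt.Ch.Below

namespace Pool.Agent.Results.MP_f0209c_nt.BelowHalf

/-- Let `ρ 0, ρ 1, …` list the zeros of the zeta function in the upper half plane by increasing
ordinate, each repeated according to its multiplicity. For every real `C` infinitely many
normalized spacings of consecutive ordinates are at most `1/2 - C / log γ`. -/
theorem result (ρ : ℕ → ℂ) (_hpos : ∀ j, 0 < (ρ j).im) (hmono : Monotone fun j => (ρ j).im)
    (hmult : ∀ s : ℂ, 0 < s.im → {j | ρ j = s}.encard = analyticOrderAt riemannZeta s) (C : ℝ) :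
    ∃ᶠ j in Filter.atTop,
      (ρ (j + 1)).im * Real.log (ρ (j + 1)).im / (2 * Real.pi) -
          (ρ j).im * Real.log (ρ j).im / (2 * Real.pi) ≤
        1 / 2 - C / Real.log (ρ j).im :=
  Pool.Agent.MP_f0209c_nt.Ch.below_half ρ hmono hmult C

end Pool.Agent.Results.MP_f0209c_nt.BelowHalf
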