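import Pool.Agent.MP_f0209c_nt.OF.C

/-! At least `|Q| ^ (1 - ε)` even Dirichlet `L`-functions modulo a prime `Q` of `k[X]`, `k` any
finite field, have two zeros at normalised distance at most `1 / 2 - η`, where `η` depends only on
the characteristic. -/

set_option autoImplicit false

open Polynomial

namespace Pool.Agent.Results.MP_f0209c_nt.FunctionField

theorem result : ∀ p : ℕ, p.Prime → ∃ η : ℝ, 0 < η ∧
    ∀ (k : Type) [Field k] [Finite k] [CharP k p] (ε : ℝ), 0 < ε →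
    ∃ d₀ : ℕ, ∀ Q : k[X], Q.Monic → Irreducible Q → d₀ ≤ Q.natDegree →
      (Nat.card k : ℝ) ^ ((1 - ε) * Q.natDegree) ≤ Set.ncard {χ : MulChar (AdjoinRoot Q) ℂ |
        χ ≠ 1 ∧ (∀ c : k, c ≠ 0 → χ (AdjoinRoot.mk Q (C c)) = 1) ∧
        ∃ θ : Fin (Q.natDegree - 2) → ℝ,
          (∀ u : ℂ, ∑ n ∈ Finset.range Q.natDegree,
              (∑ᶠ f ∈ {f : k[X] | f.Monic ∧ f.natDegree = n}, χ (AdjoinRoot.mk Q f)) * u ^ n =
            (1 - u) * ∏ j, (1 - ((√(Nat.card k) : ℝ) : ℂ) * Complex.exp (θ j * Complex.I) * u)) ∧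
          ∃ i j, i ≠ j ∧
            |θ i - θ j| ≤ (1 / 2 - η) * (2 * Real.pi / ((Q.natDegree : ℝ) - 2))} :=
  H18F.main

end Pool.Agent.Results.MP_f0209c_nt.FunctionField
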