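import Mathlib
import Pool.Agent.MP_f0209c_nt.Pp.Fin

namespace Pool.Agent.Results.MP_f0209c_nt.PositiveProportion

/-- Assume the Riemann Hypothesis and let `ρ 0, ρ 1, …` list the zeros of the zeta function in the
upper half plane by increasing ordinate, each repeated according to its multiplicity. For every
`ε > 0` at least `c T log T` of the normalized spacings of consecutive ordinates in `[T, 2T]` are
at most `1/2 + ε`. -/
theorem result (hRH : RiemannHypothesis) (ρ : ℕ → ℂ) (hpos : ∀ j, 0 < (ρ j).im)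
    (hmono : Monotone fun j => (ρ j).im)
    (hmult : ∀ s : ℂ, 0 < s.im → {j | ρ j = s}.encard = analyticOrderAt riemannZeta s)
    (ε : ℝ) (hε : 0 < ε) :
    ∃ c : ℝ, 0 < c ∧ ∀ᶠ T : ℝ in Filter.atTop,
      c * T * Real.log T ≤ ({j : ℕ | T ≤ (ρ j).im ∧ (ρ (j + 1)).im ≤ 2 * T ∧
        (ρ (j + 1)).im * Real.log (ρ (j + 1)).im / (2 * Real.pi) -
          (ρ j).im * Real.log (ρ j).im / (2 * Real.pi) ≤ 1 / 2 + ε}.ncard : ℝ) :=
  Pool.Agent.MP_f0209c_nt.Pp.Zs.pos_prop ⟨hRH, hpos, hmono, hmult⟩ hε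

end Pool.Agent.Results.MP_f0209c_nt.PositiveProportion
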