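import Mathlib
import Pool.Agent.MP_f0209c_nt.Rg.All

namespace Pool.Agent.Results.MP_f0209c_nt.Rigidity

/-- Assume the Riemann Hypothesis and let `ρ 0, ρ 1, …` list the zeros of the zeta function in the
upper half plane by increasing ordinate, each repeated according to its multiplicity; `d j` is the
normalized spacing. For all `ε, δ > 0` there are `η, c > 0` such that for all large `T`: if more
than `δ T log T` of the spacings with ordinate in `[T, 2T]` are at distance at least `ε` from every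
`m / 2`, `m ≥ 1`, then more than `c T log T` of the spacings in `[T / 2, 3T]` are at most
`1 / 2 - η`. -/
theorem result (hRH : RiemannHypothesis) (ρ : ℕ → ℂ) (hpos : ∀ j, 0 < (ρ j).im)
    (hmono : Monotone fun j => (ρ j).im)
    (hmult : ∀ s : ℂ, 0 < s.im → {j | ρ j = s}.encard = analyticOrderAt riemannZeta s)
    (d : ℕ → ℝ) (hd : ∀ j, d j = (ρ (j + 1)).im * Real.log (ρ (j + 1)).im / (2 * Real.pi) -
      (ρ j).im * Real.log (ρ j).im / (2 * Real.pi))
    (ε δ : ℝ) (hε : 0 < ε) (hδ : 0 < δ) :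
    ∃ η c : ℝ, 0 < η ∧ 0 < c ∧ ∀ᶠ T : ℝ in Filter.atTop,
      δ * T * Real.log T < ({j : ℕ | T ≤ (ρ j).im ∧ (ρ j).im ≤ 2 * T ∧
        ∀ m : ℕ, 1 ≤ m → ε ≤ |d j - m / 2|}.ncard : ℝ) →
      c * T * Real.log T < ({j : ℕ | T / 2 ≤ (ρ j).im ∧ (ρ (j + 1)).im ≤ 3 * T ∧
        d j ≤ 1 / 2 - η}.ncard : ℝ) := by
  obtain rfl : d = Pool.Agent.MP_f0209c_nt.Rg.dd ρ := funext hd
  exact Pool.Agent.MP_f0209c_nt.Rg.fin ρ ⟨hRH, hpos, hmono, hmult⟩ ε δ hε hδ

end Pool.Agent.Results.MP_f0209c_nt.Rigidity
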